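import Pool.Agent.K1H2.UB.Stm

/-! Admissible functions in the first regime (project UB, for helper2). -/

set_option autoImplicit false

open scoped ENNReal
open Finset Pool.Agent.K1H53.BI Pool.Agent.K1H2.UB

namespace Pool.Agent.K1H33.UB

lemma q_nonneg (w : Fin 3 → ℝ) : 0 ≤ q w := Finset.sum_nonneg fun i _ => sq_nonneg _

lemma q_rv (z : V) : q (rv z) = (nsq z : ℝ) := by
  unfold q rv nsq
  push_cast
  refine Finset.sum_congr rfl fun i _ => ?_
  rw [Nat.cast_natAbs, Int.cast_abs, sq_abs]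

lemma q_zero_sub (w : Fin 3 → ℝ) : q (rv 0 - w) = q w := by
  unfold q
  refine Finset.sum_congr rfl fun i _ => ?_
  have : (rv 0 - w) i = - w i := by
    simp [rv]
  rw [this, neg_sq]

lemma len_rv (z : V) : len (rv z) = nrm z := by
  unfold len nrm
  rw [q_rv]

lemma nrm_zero_sub (z : V) : nrm (0 - z) = nrm z := by
  unfold nrm nsq
  congr 2
  refine Finset.sum_congr rfl fun i _ => ?_
  have : (0 - z) i = - z i := by simp
  rw [this, Int.natAbs_neg]

lemma nrm_le_of {y : V} {N : ℕ} (h : nsq y ≤ N ^ 2) : nrm y ≤ N := by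
  unfold nrm
  rw [Real.sqrt_le_left (Nat.cast_nonneg N)]
  exact_mod_cast h

lemma nsq_le_of {y : V} {N : ℕ} (h : nrm y ≤ N) : nsq y ≤ N ^ 2 := by
  unfold nrm at h
  rw [Real.sqrt_le_left (Nat.cast_nonneg N)] at h
  exact_mod_cast h

lemma abs_le_of {y : V} {N : ℕ} (h : nsq y ≤ N ^ 2) (i : Fin 3) : |y i| ≤ (N : ℤ) := by
  have h1 : (y i).natAbs ^ 2 ≤ nsq y :=
    Finset.single_le_sum (f := fun i => (y i).natAbs ^ 2) (fun _ _ => Nat.zero_le _)
      (Finset.mem_univ i)
  have h2 : (y i).natAbs ≤ N := by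
    have := h1.trans h
    exact (Nat.pow_le_pow_iff_left (by norm_num)).1 this
  rw [Int.abs_eq_natAbs]
  exact_mod_cast h2

lemma rv_add (x : V) (e : Fin 3 × Bool) (w : Fin 3 → ℝ) :
    rv (x + dir e) - w = (rv x - w) + rd e := by
  funext i
  unfold rv rd dir
  simp only [Pi.sub_apply, Pi.add_apply]
  by_cases hi : i = e.1
  · subst hi
    simp only [Pi.single_eq_same]
    split_ifs <;> push_cast <;> ring
  · simp only [Pi.single_eq_of_ne hi]
    push_cast
    ring

/-- the numerical part of the estimate of the total mass -/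
lemma num {N δ ζ ρ U S C C0 CI C' : ℝ} (hN : 1 ≤ N) (hζ : N / 4 ≤ ζ) (hδ : δ = N - ζ)
    (hρ : ρ = N - δ / 10) (hC0 : 1 ≤ C0) (hC' : 1 ≤ C') (hCI : 1 ≤ CI)
    (hC : 100 + 2 * C0 + CI + 64 * C' ≤ C) (hδN : C ^ 2 * N ≤ δ ^ 2) (hδC : C ≤ δ)
    (hU1 : (ρ - ζ) / (ρ * ζ) ≤ U) (hU2 : U ≤ (ρ - ζ) / (ρ * ζ) + C' / ζ ^ 3)
    (hS : S ≤ 2 * Real.pi / 3 * (ρ ^ 2 - ζ ^ 2) + CI * N + C' * (26 * (2 * N))) :
    S + C0 * (δ ^ 2 / C) ≤ 4 * Real.pi / 3 * N ^ 3 * U * (1 - δ / (C * N)) ∧
      C0 / N ^ 2 ≤ U := by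
  have hC0' : 0 < C := by linarith
  have hN0 : 0 < N := by linarith
  have hδ0 : 0 < δ := by linarith
  have hζ0 : 0 < ζ := by linarith
  have hζN : ζ ≤ N := by linarith
  have hρN : ρ ≤ N := by linarith
  have hρ1 : 37 / 40 * N ≤ ρ := by linarith
  have hρ0 : 0 < ρ := by linarith
  have hρζ : ρ - ζ = 9 / 10 * δ := by linarith
  have hpi1 := Real.pi_gt_d2
  have hpi2 := Real.pi_lt_d2
  have hpi0 : 0 < Real.pi := Real.pi_pos
  obtain ⟨A, hA⟩ : ∃ A : ℝ, A = (ρ - ζ) / (ρ * ζ) := ⟨_, rfl⟩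
  rw [← hA] at hU1 hU2
  have hAm : A * (ρ * ζ) = 9 / 10 * δ := by
    rw [hA, hρζ]
    field_simp
  have hA0 : 0 ≤ A := by
    rw [hA]
    apply div_nonneg
    · linarith
    · positivity
  have hp1 : ρ * ζ ≤ N ^ 2 := by
    calc ρ * ζ ≤ N * N := mul_le_mul hρN hζN hζ0.le hN0.le
      _ = N ^ 2 := by ring
  have hp2 : 37 / 160 * N ^ 2 ≤ ρ * ζ := by
    calc 37 / 160 * N ^ 2 = (37 / 40 * N) * (N / 4) := by ring
      _ ≤ ρ * ζ := mul_le_mul hρ1 hζ (by positivity) hρ0.le
  have ha : 9 / 10 * δ ≤ N ^ 2 * A := by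
    rw [← hAm, mul_comm A]
    exact mul_le_mul_of_nonneg_right hp1 hA0
  have hb : N ^ 2 * A ≤ 4 * δ := by
    have h1 : 37 / 160 * (N ^ 2 * A) ≤ 9 / 10 * δ := by
      rw [← hAm]
      have := mul_le_mul_of_nonneg_left hp2 hA0
      linarith
    linarith
  have hc : N ^ 2 * (C' / ζ ^ 3) ≤ δ := by
    have h1 : (N / 4) ^ 3 ≤ ζ ^ 3 := pow_le_pow_left₀ (by positivity) hζ 3
    have h2 : C' / ζ ^ 3 ≤ C' / (N / 4) ^ 3 :=
      div_le_div_of_nonneg_left (by linarith) (by positivity) h1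
    have h3 : N ^ 2 * (C' / (N / 4) ^ 3) = 64 * C' / N := by
      field_simp
      ring
    have h4 : 64 * C' / N ≤ 64 * C' := div_le_self (by linarith) hN
    calc N ^ 2 * (C' / ζ ^ 3) ≤ N ^ 2 * (C' / (N / 4) ^ 3) :=
          mul_le_mul_of_nonneg_left h2 (by positivity)
      _ = 64 * C' / N := h3
      _ ≤ 64 * C' := h4
      _ ≤ δ := by linarith
  have hU5 : N ^ 2 * U ≤ 5 * δ := by
    have := mul_le_mul_of_nonneg_left hU2 (by positivity : (0 : ℝ) ≤ N ^ 2)
    rw [mul_add] at this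
    linarith
  have hU6 : 9 / 10 * δ ≤ N ^ 2 * U :=
    ha.trans (mul_le_mul_of_nonneg_left hU1 (by positivity))
  obtain ⟨X, hX⟩ : ∃ X : ℝ, X = δ ^ 2 / C := ⟨_, rfl⟩
  have hXC : X * C = δ ^ 2 := by
    rw [hX]
    field_simp
  have hX0 : 0 ≤ X := by rw [hX]; positivity
  have hX100 : 100 * X ≤ δ ^ 2 := by
    rw [← hXC]
    nlinarith
  have hXC0 : 2 * (C0 * X) ≤ δ ^ 2 := by
    rw [← hXC]
    nlinarith
  have hXN : CI * N + C' * (26 * (2 * N)) ≤ X := by
    have h1 : CI * N + C' * (26 * (2 * N)) ≤ C * N := by nlinarith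
    have h2 : C * N ≤ X := by
      rw [hX, le_div_iff₀ hC0']
      calc C * N * C = C ^ 2 * N := by ring
        _ ≤ δ ^ 2 := hδN
    exact h1.trans h2
  constructor
  · rw [← hX]
    have e1 : 4 * Real.pi / 3 * N ^ 3 * U * (1 - δ / (C * N)) =
        4 * Real.pi / 3 * N * (N ^ 2 * U) - 4 * Real.pi / 3 * (N ^ 2 * U) * (δ / C) := by
      field_simp
    rw [e1]
    have h1 : 4 * Real.pi / 3 * (N ^ 2 * U) * (δ / C) ≤ 21 * X := by
      calc 4 * Real.pi / 3 * (N ^ 2 * U) * (δ / C) ≤ 4 * Real.pi / 3 * (5 * δ) * (δ / C) := by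
            apply mul_le_mul_of_nonneg_right _ (by positivity)
            exact mul_le_mul_of_nonneg_left hU5 (by positivity)
        _ = 20 * Real.pi / 3 * X := by
            rw [hX]
            ring
        _ ≤ 21 * X := by
            apply mul_le_mul_of_nonneg_right _ hX0
            linarith
    have h2 : 4 * Real.pi / 3 * N * (9 / 10 * δ) ≤ 4 * Real.pi / 3 * N * (N ^ 2 * U) :=
      mul_le_mul_of_nonneg_left hU6 (by positivity)
    have h3 : 2 * Real.pi / 3 * (ρ ^ 2 - ζ ^ 2) =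
        4 * Real.pi / 3 * N * (9 / 10 * δ) - 66 / 100 * Real.pi * δ ^ 2 := by
      have e2 : ρ ^ 2 - ζ ^ 2 = (9 / 10 * δ) * (2 * N - 11 / 10 * δ) := by
        have e3 : ρ + ζ = 2 * N - 11 / 10 * δ := by linarith
        calc ρ ^ 2 - ζ ^ 2 = (ρ - ζ) * (ρ + ζ) := by ring
          _ = (9 / 10 * δ) * (2 * N - 11 / 10 * δ) := by rw [hρζ, e3]
      rw [e2]
      ring
    have h4 : 2 * δ ^ 2 ≤ 66 / 100 * Real.pi * δ ^ 2 := by
      apply mul_le_mul_of_nonneg_right _ (by positivity)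
      linarith
    linarith
  · rw [div_le_iff₀ (by positivity)]
    linarith

theorem t_R1 : S_R1 := by
  intro hKER hLHI hSHELL hGEO hCMP hOUT hNEAR hFAR hINT
  obtain ⟨C0, k, hC0, hk⟩ := hKER
  obtain ⟨C1, hC1, hcmp⟩ := hCMP C0 k hC0 hk
  obtain ⟨C2, hC2, hout⟩ := hOUT C0 k hC0 hk
  obtain ⟨c1, C3, hc1, hc1', hC3, hnear⟩ := hNEAR C0 k hC0 hk
  obtain ⟨C4, hC4, hfar⟩ := hFAR C0 k c1 hC0 hk hc1
  obtain ⟨CI, hCI, hint⟩ := hINT
  have hC0p : 0 < C0 := by linarith
  refine ⟨100 + 2 * C0 + CI + 64 * C1 + C2 + C3 + C4, by linarith, ?_⟩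
  intro N z hCN hfz hbig
  obtain ⟨C, hC⟩ : ∃ C : ℝ, C = 100 + 2 * C0 + CI + 64 * C1 + C2 + C3 + C4 := ⟨_, rfl⟩
  rw [← hC] at hCN hbig ⊢
  have hCpos : 0 < C := by linarith
  have hN1 : (1 : ℝ) ≤ N := by linarith
  have hNpos : (0 : ℝ) < N := by linarith
  have hsq1 : 1 ≤ Real.sqrt N := by
    rw [Real.one_le_sqrt]
    exact hN1
  have hdlC : C ≤ dl N z := by
    unfold dl
    have : C * 1 ≤ C * Real.sqrt N := mul_le_mul_of_nonneg_left hsq1 hCpos.le
    linarith
  have hdl0 : 0 < dl N z := by linarith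
  have hreg : ∀ D : ℝ, D ≤ C → Reg D N z := fun D hD => ⟨hfz, hD.trans hdlC⟩
  obtain ⟨g1, g2, g3, g4, g5, g6, g7⟩ := hGEO N z (hreg 10 (by linarith))
  have hcmp' := hcmp N z (hreg C1 (by linarith))
  have hout' := hout N z (hreg C2 (by linarith))
  have hnear' := hnear N z (hreg C3 (by linarith))
  have hfar' := hfar N z (hreg C4 (by linarith))
  have hint' := hint N z (hreg CI (by linarith))
  have hζpos : 0 < nrm z := by
    have : (0 : ℝ) < N / 4 := by positivity
    linarith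
  have hz0 : z ≠ 0 := by
    rintro rfl
    have : nrm (0 : V) = 0 := by simp [nrm, nsq]
    linarith
  have hζN : nrm z ≤ N := by
    have : dl N z = N - nrm z := rfl
    linarith
  have hnz : ∀ x : V, x ≠ z → x - z ≠ 0 := fun x hx => sub_ne_zero.2 hx
  have hin : ∀ x : V, 0 < UU k N z x → nrm x ≤ N := by
    intro x hx
    by_contra hcon
    have h1 : N ^ 2 < nsq x := by
      by_contra h2
      exact hcon (nrm_le_of (not_lt.1 h2))
    exact absurd hx (not_lt.2 (hout' x h1))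
  -- bounds for the value at the origin
  have hρdef : rho N z = N - dl N z / 10 := rfl
  have hdldef : dl N z = N - nrm z := rfl
  have hρpos : 0 < rho N z := by
    rw [hρdef, hdldef]
    linarith
  have hkapdef : kap N z = rho N z / nrm z := rfl
  have hqzs : Real.sqrt (q (zs N z)) = rho N z ^ 2 / nrm z := g7
  have hkl : kap N z / (rho N z ^ 2 / nrm z) = 1 / rho N z := by
    rw [hkapdef]
    field_simp
  have hvv0 : vv N z (rv 0) = (rho N z - nrm z) / (rho N z * nrm z) := by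
    unfold vv len
    rw [q_zero_sub, q_zero_sub, hqzs, hkl]
    have : Real.sqrt (q (rv z)) = nrm z := len_rv z
    rw [this]
    field_simp
  have hU1 : (rho N z - nrm z) / (rho N z * nrm z) ≤ UU k N z 0 := by
    have h1 : (rho N z - nrm z) / (rho N z * nrm z) = 1 / nrm z - 1 / rho N z := by
      field_simp
    rw [h1]
    unfold UU
    have h2 : 1 / nrm z ≤ k (0 - z) := by
      have := hk.low (0 - z) (hnz 0 hz0.symm)
      rwa [nrm_zero_sub] at this
    have h3 : kap N z / Real.sqrt (q (rv 0 - zs N z) + 3) ≤ 1 / rho N z := by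
      rw [q_zero_sub, ← hkl]
      apply div_le_div_of_nonneg_left (by linarith) (by positivity)
      rw [← hqzs]
      exact Real.sqrt_le_sqrt (by linarith)
    linarith
  have hU2 : UU k N z 0 ≤ (rho N z - nrm z) / (rho N z * nrm z) + C1 / nrm z ^ 3 := by
    have h1 := (hcmp' 0 hz0.symm (by
      have : nrm (0 : V) = 0 := by simp [nrm, nsq]
      rw [this]
      positivity)).1
    rw [hvv0, nrm_zero_sub] at h1
    have := (abs_le.1 h1).2
    linarith
  -- the total mass
  have hS : ∑ y ∈ (ballF N).erase z, max (UU k N z y) 0 ≤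
      2 * Real.pi / 3 * (rho N z ^ 2 - nrm z ^ 2) + CI * N + C1 * (26 * (2 * N)) := by
    have h1 : ∀ y ∈ (ballF N).erase z, max (UU k N z y) 0 ≤
        max (vv N z (rv y)) 0 + C1 * (1 / nrm (y - z) ^ 3) := by
      intro y hy
      rw [Finset.mem_erase] at hy
      have hy2 := hy.2
      unfold ballF at hy2
      rw [Finset.mem_filter] at hy2
      have h2 := (hcmp' y hy.1 (by
        have := nrm_le_of hy2.2
        linarith)).1
      have h3 := (abs_le.1 h2).2
      have h4 : C1 * (1 / nrm (y - z) ^ 3) = C1 / nrm (y - z) ^ 3 := by ring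
      have h5 : 0 ≤ C1 / nrm (y - z) ^ 3 := by
        have : 0 ≤ nrm (y - z) := Real.sqrt_nonneg _
        positivity
      rw [h4]
      apply max_le
      · have := le_max_left (vv N z (rv y)) 0
        linarith
      · have := le_max_right (vv N z (rv y)) 0
        linarith
    have h2 := Finset.sum_le_sum h1
    rw [Finset.sum_add_distrib, ← Finset.mul_sum] at h2
    have h3 : ∑ y ∈ (ballF N).erase z, 1 / nrm (y - z) ^ 3 ≤ 26 * (2 * (N : ℝ)) := by
      have h4 := (hSHELL (2 * N) (((ballF N).erase z).image fun y => y - z) (by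
        intro w hw
        rw [Finset.mem_image] at hw
        obtain ⟨y, hy, rfl⟩ := hw
        rw [Finset.mem_erase] at hy
        have hy2 := hy.2
        unfold ballF at hy2
        rw [Finset.mem_filter] at hy2
        refine ⟨hnz y hy.1, fun i => ?_⟩
        have e1 := abs_le_of hy2.2 i
        have e2 := abs_le_of (nsq_le_of hζN) i
        have e3 : |(y - z) i| ≤ |y i| + |z i| := by
          rw [Pi.sub_apply]
          exact abs_sub _ _
        push_cast
        linarith)).2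
      rw [Finset.sum_image (fun a _ b _ h => sub_left_injective h)] at h4
      push_cast at h4
      exact h4
    have h5 := mul_le_mul_of_nonneg_left h3 (by linarith : (0 : ℝ) ≤ C1)
    linarith
  have hδN : C ^ 2 * N ≤ dl N z ^ 2 := by
    have h1 : (C * Real.sqrt N) ^ 2 ≤ dl N z ^ 2 :=
      pow_le_pow_left₀ (by positivity) hbig 2
    rw [mul_pow, Real.sq_sqrt hNpos.le] at h1
    exact h1
  obtain ⟨hnum, hlow⟩ := num (C := C) hN1 hfz hdldef hρdef hC0 hC1 hCI (by linarith) hδN hdlC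
    hU1 hU2 hS
  refine ⟨fun y => UU k N z y / C0, ?_, ?_, ?_, ?_, ?_, ?_⟩
  · -- le_one
    intro x
    rw [div_le_one hC0p]
    unfold UU
    have h1 := hk.le (x - z)
    have h2 : 0 ≤ kap N z / Real.sqrt (q (rv x - zs N z) + 3) :=
      div_nonneg (by linarith) (Real.sqrt_nonneg _)
    linarith
  · -- out
    intro x hx
    exact div_nonpos_of_nonpos_of_nonneg (hout' x hx) hC0p.le
  · -- sub
    intro x hxz _
    have h1 := hk.sub (x - z) (hnz x hxz)
    have h2 := hLHI (rv x - zs N z)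
    have e1 : PP (fun y => UU k N z y / C0) x =
        (PP k (x - z) - kap N z * ((∑ e : Fin 3 × Bool,
          1 / Real.sqrt (q ((rv x - zs N z) + rd e) + 3)) / 6)) / C0 := by
      unfold PP UU
      have e2 : ∀ e : Fin 3 × Bool, (k (x + dir e - z) -
          kap N z / Real.sqrt (q (rv (x + dir e) - zs N z) + 3)) / C0 =
          k (x - z + dir e) / C0 - kap N z *
            (1 / Real.sqrt (q ((rv x - zs N z) + rd e) + 3)) / C0 := by
        intro e
        rw [rv_add, add_sub_right_comm]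
        ring
      rw [Finset.sum_congr rfl fun e _ => e2 e, Finset.sum_sub_distrib, ← Finset.sum_div,
        ← Finset.sum_div, ← Finset.mul_sum]
      ring
    change UU k N z x / C0 ≤ PP (fun y => UU k N z y / C0) x
    rw [e1]
    apply div_le_div_of_nonneg_right _ hC0p.le
    unfold UU
    have h3 := mul_le_mul_of_nonneg_left h2 (by linarith : 0 ≤ kap N z)
    have h4 : kap N z * (1 / Real.sqrt (q (rv x - zs N z) + 3)) =
        kap N z / Real.sqrt (q (rv x - zs N z) + 3) := by ring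
    rw [h4] at h3
    linarith
  · -- grad
    intro x hxz hux e'
    have hux' : 0 < UU k N z x := by
      have := mul_pos hux hC0p
      rwa [div_mul_cancel₀ _ hC0p.ne'] at this
    have hxN := hin x hux'
    have key : ∃ e, UU k N z (x + dir e') ^ 3 ≤
        C * dl N z * (UU k N z (x + dir e) - UU k N z x) ^ 2 := by
      by_cases hcase : nrm (x - z) ≤ c1 * dl N z
      · obtain ⟨e, he⟩ := hnear' x hxz hxN hcase e'
        refine ⟨e, he.trans ?_⟩
        apply mul_le_mul_of_nonneg_right _ (sq_nonneg _)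
        exact mul_le_mul_of_nonneg_right (by linarith) hdl0.le
      · obtain ⟨e, he⟩ := hfar' x hxz hxN (not_le.1 hcase).le hux' e'
        refine ⟨e, he.trans ?_⟩
        apply mul_le_mul_of_nonneg_right _ (sq_nonneg _)
        exact mul_le_mul_of_nonneg_right (by linarith) hdl0.le
    obtain ⟨e, he⟩ := key
    refine ⟨e, ?_⟩
    change (UU k N z (x + dir e') / C0) ^ 3 ≤
      C * dl N z * (UU k N z (x + dir e) / C0 - UU k N z x / C0) ^ 2
    have e1 : (UU k N z (x + dir e') / C0) ^ 3 = UU k N z (x + dir e') ^ 3 / C0 ^ 3 := div_pow _ _ _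
    have e2 : C * dl N z * (UU k N z (x + dir e) / C0 - UU k N z x / C0) ^ 2 =
        C * dl N z * (UU k N z (x + dir e) - UU k N z x) ^ 2 * C0 / C0 ^ 3 := by
      field_simp
    rw [e1, e2]
    apply div_le_div_of_nonneg_right _ (by positivity)
    refine he.trans ?_
    exact le_mul_of_one_le_right (by positivity) hC0
  · -- tot
    have e1 : ∑ y ∈ (ballF N).erase z, max (UU k N z y / C0) 0 =
        (∑ y ∈ (ballF N).erase z, max (UU k N z y) 0) / C0 := by
      rw [Finset.sum_div]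
      refine Finset.sum_congr rfl fun y _ => ?_
      have := max_div_div_right hC0p.le (UU k N z y) 0
      rw [zero_div] at this
      exact this
    change ∑ y ∈ (ballF N).erase z, max (UU k N z y / C0) 0 + dl N z ^ 2 / C ≤
      4 * Real.pi / 3 * N ^ 3 * (UU k N z 0 / C0) * (1 - dl N z / (C * N))
    rw [e1]
    have e2 : (∑ y ∈ (ballF N).erase z, max (UU k N z y) 0) / C0 + dl N z ^ 2 / C =
        (∑ y ∈ (ballF N).erase z, max (UU k N z y) 0 + C0 * (dl N z ^ 2 / C)) / C0 := by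
      field_simp
    have e3 : 4 * Real.pi / 3 * (N : ℝ) ^ 3 * (UU k N z 0 / C0) * (1 - dl N z / (C * N)) =
        4 * Real.pi / 3 * (N : ℝ) ^ 3 * UU k N z 0 * (1 - dl N z / (C * N)) / C0 := by ring
    rw [e2, e3]
    exact div_le_div_of_nonneg_right hnum hC0p.le
  · -- low
    change 1 / (N : ℝ) ^ 2 ≤ UU k N z 0 / C0
    rw [le_div_iff₀ hC0p]
    calc 1 / (N : ℝ) ^ 2 * C0 = C0 / (N : ℝ) ^ 2 := by ring
      _ ≤ UU k N z 0 := hlow

end Pool.Agent.K1H33.UB
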